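import Mathlib
import Pool.Agent.W307.FK.Stm

/-!
# Project EG (helper870): the exact growth of all the moments of the 2-Selmer groups of the elliptic
curves with full rational 2-torsion, ordered by height

Statements of the independent parts. `IF k`, `Lk`, `dt` are those of project FK.
-/

set_option autoImplicit false

namespace Pool.Agent.N870.EG

open Finset Pool.Agent.W307.FK

/-- EG/COMBK. The largest unlinked set. -/
def S_COMBK : Prop := ∀ k : ℕ, 1 ≤ k → ∀ U : Finset (IF k),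
  (∀ i ∈ U, ∀ j ∈ U, Lk k i j = Lk k j i) →
    U.card ≤ max (3 * 2 ^ k) (2 ^ (2 * k - 1) + 2 ^ (k - 1) + 2)

/-- EG/SOMK. A convergent series. -/
def S_SOMK : Prop := ∀ A : ℕ, ∃ C : ℝ, 0 ≤ C ∧ ∀ n : ℕ,
  ∑ g ∈ Icc 1 n, (A : ℝ) ^ g.primeFactors.card / (g : ℝ) ^ 2 ≤ C

end Pool.Agent.N870.EG
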