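import Pool.Agent.W307.FK.Gen
import Pool.Agent.TH841.PT.Fin1
import Pool.Agent.N870.EG.Stm

/-!
# Project EG: the moments of order `q` in short squares, with a power of the logarithm

Adapted from `W307/FK/Gen.lean` (generic versions of `avgf_of` of helper612 and `avgn_of` of
helper736): arbitrary powers `q` instead of the squares, and a main average of the order
`(log y) ^ (3 + E)`; the summation of Nair and Tenenbaum is the one of `TH841/PT`.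
-/

set_option autoImplicit false

namespace Pool.Agent.N870.EG

open Finset Pool.Agent.W262.RK Pool.Agent.W307.RT Pool.Agent.W307.RS Pool.Agent.W307.SE
  Pool.Agent.W307.FK
open Pool.Agent.W612.FK (fF0 fF1 fF2 gd_fF fF_size)
open Pool.Agent.W307.FK.G (SELFG Th TS size_aux one_le)
open Pool.Agent.TH841.PT (gp ANTX)

/-- the constant for the prime factors of `D` -/
noncomputable def AQ (q : ℕ) : ℝ := 2 * 8 ^ q

lemma AQ_pos (q : ℕ) : 0 < AQ q := by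
  unfold AQ
  positivity

/-- the main average for the powers `q` -/
def MAFQ (q : ℕ) (E : ℝ) : Prop := ∃ z0 : ℕ, ∀ z, z0 ≤ z → ∃ C : ℝ, ∀ y, z < y →
  ∑ s ∈ Tup (Fin 3) z y, NF q s * ∏ j, gw 1 3 (s j) ≤ C * (Real.log y) ^ (3 + E)

/-- the moment over the coprime pairs of short squares -/
def AVGFQ (q : ℕ) (E : ℝ) (G : ℤ → ℤ → ℕ) : Prop := ∀ B : ℕ, ∃ C : ℝ, 0 ≤ C ∧
  ∀ (D N1 N2 : ℤ) (X : ℕ), D ≠ 0 → 1 ≤ X → N1.natAbs ≤ X ^ B → N2.natAbs ≤ X ^ B →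
    ∑ t ∈ (Icc 1 X ×ˢ Icc 1 X).filter (fun t : ℕ × ℕ =>
      IsCoprime (N1 + (t.1 : ℤ)) (N2 + (t.2 : ℤ)) ∧
      ∀ j, fF (N1 + (t.1 : ℤ)) (N2 + (t.2 : ℤ)) j ≠ 0),
    ((G (D * fF (N1 + (t.1 : ℤ)) (N2 + (t.2 : ℤ)) 0)
      (D * fF (N1 + (t.1 : ℤ)) (N2 + (t.2 : ℤ)) 1)) : ℝ) ^ q ≤
      C * AQ q ^ D.natAbs.primeFactors.card * (X ^ 2 * (1 + Real.log X) ^ E)

open Classical in
/-- the power -/
noncomputable def SSQ (q : ℕ) (G : ℤ → ℤ → ℕ) (D : ℤ) (t : ℤ × ℤ) : ℝ :=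
  if IsCoprime t.1 t.2 ∧ t.1 ≠ 0 ∧ t.2 ≠ 0 ∧ t.1 ≠ t.2 then
    (G (D * t.1) (D * t.2) : ℝ) ^ q else 0

/-- the moment in short squares -/
def AVGNQ (q : ℕ) (E : ℝ) (G : ℤ → ℤ → ℕ) : Prop := ∀ B : ℕ, ∃ C : ℝ, 0 ≤ C ∧
  ∀ (D N1 N2 : ℤ) (X : ℕ), D ≠ 0 → 1 ≤ X → N1.natAbs ≤ X ^ B → N2.natAbs ≤ X ^ B →
    ∑ t ∈ Icc 1 X ×ˢ Icc 1 X, SSQ q G D (N1 + (t.1 : ℤ), N2 + (t.2 : ℤ)) ≤
      C * AQ q ^ D.natAbs.primeFactors.card * (X ^ 2 * (1 + Real.log X) ^ E)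

/-- the summand -/
noncomputable def RR (q : ℕ) (G : ℤ → ℤ → ℕ) (D N1 N2 : ℤ) (t : ℕ × ℕ) : ℝ :=
  ((G (D * fF (N1 + (t.1 : ℤ)) (N2 + (t.2 : ℤ)) 0)
      (D * fF (N1 + (t.1 : ℤ)) (N2 + (t.2 : ℤ)) 1)) : ℝ) ^ q

lemma RR_nonneg (q : ℕ) (G : ℤ → ℤ → ℕ) (D N1 N2 : ℤ) (t : ℕ × ℕ) : 0 ≤ RR q G D N1 N2 t := by
  unfold RR
  positivity

lemma RR_small (q : ℕ) {G : ℤ → ℤ → ℕ} (h1 : SELFG G) (M : ℕ) (hM : 1 ≤ M) (D N1 N2 : ℤ)
    (t : ℕ × ℕ) (hD : D ≠ 0)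
    (huv : IsCoprime (N1 + (t.1 : ℤ)) (N2 + (t.2 : ℤ)))
    (h0 : ∀ j, fF (N1 + (t.1 : ℤ)) (N2 + (t.2 : ℤ)) j ≠ 0)
    (hs : ∀ j, (fF (N1 + (t.1 : ℤ)) (N2 + (t.2 : ℤ)) j).natAbs ≤ M) :
    RR q G D N1 N2 t ≤ (4 ^ 4 * 64 ^ M) ^ q * AQ q ^ D.natAbs.primeFactors.card := by
  have h := one_le h1 M hM D _ _ hD huv h0 hs
  unfold RR
  refine (pow_le_pow_left₀ (Nat.cast_nonneg _) h q).trans ?_
  rw [mul_pow]
  refine mul_le_mul_of_nonneg_left ?_ (by positivity)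
  rw [← pow_mul, mul_comm, pow_mul]
  refine pow_le_pow_left₀ (by positivity) ?_ _
  unfold AQ
  have h8 : (0 : ℝ) < 8 ^ q := by positivity
  linarith

lemma gp_gw (m d : ℕ) : gp (fun _ => (1 : ℝ)) m d = gw 1 m d := rfl

/-- the moments over the coprime pairs of short squares -/
theorem avgfq_of {q : ℕ} {E : ℝ} (hE : 0 ≤ E) {G : ℤ → ℤ → ℕ} (h1 : SELFG G)
    (h2 : Pool.Agent.W307.FK.CNTF) (h3 : MAFQ q E) (h4 : Pool.Agent.W307.FK.SUBF) :
    AVGFQ q E G := by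
  intro B
  have hant : ANTX := Pool.Agent.TH841.PT.antx
  obtain ⟨z0, hz0⟩ := h3
  obtain ⟨z, hz⟩ : ∃ z, z = z0 + 8 := ⟨_, rfl⟩
  have hz2 : 2 ≤ z := by omega
  have hzn : 2 * Fintype.card (Fin 3) + 2 ≤ z := by rw [Fintype.card_fin]; omega
  obtain ⟨C', hC'⟩ := hz0 z (by omega)
  obtain ⟨C, K, y0, hC0, hK1, hcn⟩ := h2 z B hzn
  rw [Fintype.card_fin] at hcn
  obtain ⟨y1, hy1⟩ : ∃ y1, y1 = y0 + 6 := ⟨_, rfl⟩
  have hlog : ∀ y : ℕ, z < y → 0 < Real.log y := by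
    intro y hy
    exact Real.log_pos (by exact_mod_cast (by omega : 1 < y))
  have hgn : ∀ {y' : ℕ} {s : Fin 3 → ℕ} (_ : s ∈ Tup (Fin 3) z y') (i : Fin 3),
      0 ≤ gw 1 3 (s i) := by
    intro y' s hs i
    have h5 := Pool.Agent.TH841.PT.gp_nonneg (a := fun _ => (1 : ℝ)) (c := 3) (z := z)
      (fun p => zero_le_one) (by omega) ((Pool.Agent.W405.RK2.mem_Tup.1 hs).1 i)
    exact h5
  suffices key : ∃ C2 : ℝ, ∀ θ : Th B,
      ∑ t ∈ TS θ.1.2.1 θ.1.2.2.1 θ.1.2.2.2, RR q G θ.1.1 θ.1.2.1 θ.1.2.2.1 t ≤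
        C2 * (AQ q ^ θ.1.1.natAbs.primeFactors.card *
          ((θ.1.2.2.2 : ℝ) ^ 2 * (1 + Real.log θ.1.2.2.2) ^ E)) by
    obtain ⟨C2, hC2⟩ := key
    refine ⟨max C2 0, le_max_right _ _, fun D N1 N2 X hD hX hN1 hN2 => ?_⟩
    have h5 := hC2 ⟨(D, N1, N2, X), hD, hX, hN1, hN2⟩
    have e : TS N1 N2 X = (Icc 1 X ×ˢ Icc 1 X).filter (fun t : ℕ × ℕ =>
      IsCoprime (N1 + (t.1 : ℤ)) (N2 + (t.2 : ℤ)) ∧
      ∀ j, fF (N1 + (t.1 : ℤ)) (N2 + (t.2 : ℤ)) j ≠ 0) := by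
      unfold TS
      congr
    rw [← e]
    refine h5.trans ?_
    show C2 * (AQ q ^ D.natAbs.primeFactors.card * ((X : ℝ) ^ 2 * (1 + Real.log X) ^ E)) ≤ _
    rw [mul_assoc]
    have hlX : 0 ≤ Real.log (X : ℝ) := Real.log_natCast_nonneg X
    have := AQ_pos q
    exact mul_le_mul_of_nonneg_right (le_max_left _ _) (by positivity)
  refine hant (Fin 3) (ℕ × ℕ) (Th B) (fun θ => TS θ.1.2.1 θ.1.2.2.1 θ.1.2.2.2)
    (fun θ => θ.1.2.2.2)
    (fun θ t => fF (θ.1.2.1 + (t.1 : ℤ)) (θ.1.2.2.1 + (t.2 : ℤ)))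
    (fun θ => AQ q ^ θ.1.1.natAbs.primeFactors.card *
      ((θ.1.2.2.2 : ℝ) ^ 2 * (1 + Real.log θ.1.2.2.2) ^ E)) z
    (fun y => (Real.log y) ^ (3 + E))
    (fun s => NF q s * ∏ j, gw 1 3 (s j))
    (fun v => ∏ j, ((4 : ℝ) ^ q) ^ (v j).primeFactors.card * (gw 1 3 (v j) / v j))
    (fun u => ∏ j, ((1 : ℝ) ^ (u j).primeFactors.card / (u j : ℝ)))
    (fun θ t => RR q G θ.1.1 θ.1.2.1 θ.1.2.2.1 t)
    (C * (4 ^ (z + 2)) ^ q) (((4 ^ (B + 2)) ^ 3) ^ q) K y1 hz2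
    (fun y hy => Real.rpow_pos_of_pos (hlog y hy) _) (fun θ => θ.2.2.1)
    (fun θ => ?_) (fun X0 => ?_)
    (fun θ ω hω => ?_) (fun θ t => RR_nonneg _ _ _ _ _ _) (by positivity)
    (one_le_pow₀ (one_le_pow₀ (one_le_pow₀ (by norm_num)))) hK1
    (fun y s hs => ⟨?_, ?_⟩) (fun y Y hzy u hu => ?_) (fun lam hlam => ?_)
    (fun lam hlam => ?_) (fun lam hlam => ?_) ?_
  · have hlX : 0 ≤ Real.log (θ.1.2.2.2 : ℝ) := Real.log_natCast_nonneg _
    have := AQ_pos q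
    positivity
  · -- small scales
    obtain ⟨M, hM⟩ : ∃ M, M = 3 * (X0 ^ B + X0) + 1 := ⟨_, rfl⟩
    refine ⟨(4 ^ 4 * 64 ^ M) ^ q, ?_⟩
    rintro ⟨⟨D, N1, N2, X⟩, hD, hX1, hN1, hN2⟩ hle
    simp only at hD hX1 hN1 hN2 hle ⊢
    have hXB : X ^ B ≤ X0 ^ B := Nat.pow_le_pow_left hle B
    have hAQ := AQ_pos q
    have hb : ∀ t ∈ TS N1 N2 X, RR q G D N1 N2 t ≤
        (4 ^ 4 * 64 ^ M) ^ q * AQ q ^ D.natAbs.primeFactors.card := by
      intro t ht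
      simp only [TS, mem_filter, mem_product, mem_Icc] at ht
      refine RR_small q h1 M (by omega) D N1 N2 t hD ht.2.1 ht.2.2 fun j => ?_
      have h6 : (N1 + (t.1 : ℤ)).natAbs ≤ X0 ^ B + X0 := by
        have h61 : t.1 ≤ X := ht.1.1.2
        omega
      have h7 : (N2 + (t.2 : ℤ)).natAbs ≤ X0 ^ B + X0 := by
        have h71 : t.2 ≤ X := ht.1.2.2
        omega
      have h8 := fF_size h6 h7 j
      omega
    have hcard : ((TS N1 N2 X).card : ℝ) ≤ (X : ℝ) ^ 2 := by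
      have h6 : (TS N1 N2 X).card ≤ X ^ 2 := by
        unfold TS
        refine (card_filter_le _ _).trans ?_
        rw [card_product, Nat.card_Icc]
        simp only [Nat.add_sub_cancel]
        rw [pow_two]
      exact_mod_cast h6
    have hlX : 0 ≤ Real.log (X : ℝ) := Real.log_natCast_nonneg X
    have hl1 : (1 : ℝ) ≤ (1 + Real.log X) ^ E := Real.one_le_rpow (by linarith) hE
    calc ∑ t ∈ TS N1 N2 X, RR q G D N1 N2 t
        ≤ ∑ _t ∈ TS N1 N2 X, (4 ^ 4 * 64 ^ M) ^ q * AQ q ^ D.natAbs.primeFactors.card :=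
          sum_le_sum hb
      _ = ((TS N1 N2 X).card : ℝ) * ((4 ^ 4 * 64 ^ M) ^ q * AQ q ^ D.natAbs.primeFactors.card) := by
          rw [sum_const, nsmul_eq_mul]
      _ ≤ (X : ℝ) ^ 2 * ((4 ^ 4 * 64 ^ M) ^ q * AQ q ^ D.natAbs.primeFactors.card) :=
          mul_le_mul_of_nonneg_right hcard (by positivity)
      _ ≤ ((X : ℝ) ^ 2 * (1 + Real.log X) ^ E) *
            ((4 ^ 4 * 64 ^ M) ^ q * AQ q ^ D.natAbs.primeFactors.card) :=
          mul_le_mul_of_nonneg_right (le_mul_of_one_le_right (by positivity) hl1) (by positivity)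
      _ = _ := by ring
  · simp only [TS, mem_filter] at hω
    exact gd_fF z hω.2.1 hω.2.2
  · refine mul_nonneg ?_ (prod_nonneg fun i _ => hgn hs i)
    unfold NF
    exact mul_nonneg (by positivity) (sum_nonneg fun _ _ => pow_nonneg (Nat.cast_nonneg _) _)
  · exact prod_nonneg fun i _ => mul_nonneg (by positivity)
      (div_nonneg (hgn hs i) (Nat.cast_nonneg _))
  · exact prod_nonneg fun i _ => by positivity
  · obtain ⟨A, hA⟩ := Pool.Agent.TH841.PT.RSPf.rsp (Fin 3) z 3 (fun _ _ => 1) (NF q)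
      (fun y => C' * (Real.log y) ^ (3 + E)) (4 ^ q) lam (by omega)
      (fun i p => ⟨zero_le_one, by norm_num⟩) (one_le_pow₀ (by norm_num)) hlam
      (fun s => by
        unfold NF
        exact mul_nonneg (by positivity) (sum_nonneg fun _ _ => pow_nonneg (Nat.cast_nonneg _) _))
      (fun y hy s e hse => h4 q z y hz2 s e hse)
      (fun y hy => hC' y hy)
    refine ⟨A * C', fun y hy => ?_⟩
    have := hA y hy
    rw [mul_assoc]
    exact this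
  · exact Pool.Agent.TH841.PT.RVU.rvp (Fin 3) z 3 (fun _ _ => 1) (4 ^ q) lam (by omega)
      (fun i p => ⟨zero_le_one, by norm_num⟩) (one_le_pow₀ (by norm_num)) hlam
  · exact Pool.Agent.TH841.PT.RVU.rup (Fin 3) 1 lam le_rfl hlam
  -- the local majorant
  rintro ⟨⟨D, N1, N2, X⟩, hD, hX1, hN1, hN2⟩ y Y k hy0 hzy hyK hk s hs v hv u hu h8 T' hT' hval
  simp only at hD hX1 hN1 hN2 hyK hk h8 hT' hval ⊢
  have hAQ := AQ_pos q
  have hy00 : y0 ≤ y := by omega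
  have hyX : y ≤ X := le_trans (Nat.le_self_pow (by omega) y) hyK
  obtain ⟨sg, hsg⟩ : ∃ sg : ℕ × ℕ → Finset ℕ,
    sg = fun t => sgF (D * fF (N1 + (t.1 : ℤ)) (N2 + (t.2 : ℤ)) 0)
        (D * fF (N1 + (t.1 : ℤ)) (N2 + (t.2 : ℤ)) 1) (∏ j, s j) := ⟨_, rfl⟩
  obtain ⟨g, hg⟩ : ∃ g : Finset ℕ → ℝ, g = fun E => (NL (∏ j, s j) (LF s E) : ℝ) ^ q := ⟨_, rfl⟩
  have hg0 : ∀ E, 0 ≤ g E := fun E => by rw [hg]; exact pow_nonneg (Nat.cast_nonneg _) _
  have h5 : ∀ t ∈ T', RR q G D N1 N2 t ≤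
      (4 ^ (z + 2)) ^ q * ((8 ^ q) ^ D.natAbs.primeFactors.card *
        (((4 ^ (B + 2)) ^ 3) ^ q) ^ k) *
        (4 ^ q) ^ (∑ j, (v j).primeFactors.card) * g (sg t) := by
    intro t ht
    have htT := hT' ht
    simp only [TS, mem_filter, mem_product, mem_Icc] at htT
    obtain ⟨ht1, htc, ht0⟩ := htT
    obtain ⟨hts, htv, _⟩ := hval t ht
    have hsize : ∀ j, (fF (N1 + (t.1 : ℤ)) (N2 + (t.2 : ℤ)) j).natAbs ≤ X ^ (B + 2) := by
      intro j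
      have e5 : X ^ B ≤ X ^ (B + 1) := Nat.pow_le_pow_right hX1 (by omega)
      have e6 : X ≤ X ^ (B + 1) := Nat.le_self_pow (by omega) X
      have h6 : (N1 + (t.1 : ℤ)).natAbs ≤ X ^ B + X := by
        have h61 : t.1 ≤ X := ht1.1.2
        omega
      have h7 : (N2 + (t.2 : ℤ)).natAbs ≤ X ^ B + X := by
        have h71 : t.2 ≤ X := ht1.2.2
        omega
      calc (fF (N1 + (t.1 : ℤ)) (N2 + (t.2 : ℤ)) j).natAbs ≤ 3 * (X ^ B + X) := fF_size h6 h7 j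
        _ ≤ 3 * (X ^ (B + 1) + X ^ (B + 1)) := Nat.mul_le_mul_left _ (Nat.add_le_add e5 e6)
        _ = 6 * X ^ (B + 1) := by ring
        _ ≤ X * X ^ (B + 1) := Nat.mul_le_mul_right _ (by omega)
        _ = X ^ (B + 2) := by ring
    have hr := (h1 (fF (N1 + (t.1 : ℤ)) (N2 + (t.2 : ℤ))) D z y X k (B + 2) hz2 hD
      (gd_fF z htc ht0) (by rw [fF0, fF1, fF2]; ring) hsize hX1 (by omega) hk)
    rw [hts, htv, Fintype.card_fin] at hr
    have hr' : ((G (D * fF (N1 + (t.1 : ℤ)) (N2 + (t.2 : ℤ)) 0)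
        (D * fF (N1 + (t.1 : ℤ)) (N2 + (t.2 : ℤ)) 1)) : ℝ) ≤
        4 ^ (z + 2) * 8 ^ D.natAbs.primeFactors.card * ((4 ^ (B + 2)) ^ 3) ^ k *
          4 ^ (∑ j, (v j).primeFactors.card) * (NL (∏ j, s j) (LF s (sg t)) : ℝ) := by
      rw [hsg]
      exact_mod_cast hr
    unfold RR
    refine (pow_le_pow_left₀ (Nat.cast_nonneg _) hr' q).trans (le_of_eq ?_)
    rw [hg]
    simp only [mul_pow]
    have e1 : ((8 : ℝ) ^ D.natAbs.primeFactors.card) ^ q = (8 ^ q) ^ D.natAbs.primeFactors.card := by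
      rw [← pow_mul, mul_comm, pow_mul]
    have e2 : ((((4 : ℝ) ^ (B + 2)) ^ 3) ^ k) ^ q = (((4 ^ (B + 2)) ^ 3) ^ q) ^ k := by
      rw [← pow_mul, mul_comm, pow_mul]
    have e3 : ((4 : ℝ) ^ (∑ j, (v j).primeFactors.card)) ^ q =
        (4 ^ q) ^ (∑ j, (v j).primeFactors.card) := by
      rw [← pow_mul, mul_comm, pow_mul]
    rw [e1, e2, e3]
    ring
  have hneg : ∀ t ∈ T', sg t ∈ (∏ j, s j).primeFactors.powerset := by
    intro t _
    rw [mem_powerset, hsg]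
    exact filter_subset _ _
  have h6 : ∑ t ∈ T', g (sg t) =
      ∑ E ∈ (∏ j, s j).primeFactors.powerset,
        ((T'.filter (fun t => sg t = E)).card : ℝ) * g E := by
    rw [← sum_fiberwise_of_maps_to hneg]
    refine sum_congr rfl fun E _ => ?_
    rw [← nsmul_eq_mul, ← sum_const]
    refine sum_congr rfl fun t ht => ?_
    rw [(mem_filter.1 ht).2]
  obtain ⟨W, hW⟩ : ∃ W : ℝ, W = C * 2 ^ D.natAbs.primeFactors.card * X ^ 2 *
        (1 / 2) ^ (∏ j, s j).primeFactors.card *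
        (∏ j, gw 1 3 (s j)) * (∏ j, gw 1 3 (v j) / v j) * (∏ j, 1 / (u j : ℝ)) := ⟨_, rfl⟩
  have hW0 : 0 ≤ W := by
    have n1 : 0 ≤ ∏ j, gw 1 3 (s j) := prod_nonneg fun i _ => hgn hs i
    have n2 : 0 ≤ ∏ j, gw 1 3 (v j) / v j :=
      prod_nonneg fun i _ => div_nonneg (hgn hv i) (Nat.cast_nonneg _)
    have n3 : 0 ≤ ∏ j, 1 / (u j : ℝ) := prod_nonneg fun i _ => by positivity
    rw [hW]
    positivity
  obtain ⟨Q, hQ⟩ : ∃ Q : ℝ, Q = W * (1 + Real.log X) ^ E / (Real.log y) ^ (3 + E) := ⟨_, rfl⟩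
  have hly := hlog y hzy
  have hWQ : W / (Real.log y) ^ 3 ≤ Q := by
    have e1 : (Real.log y) ^ (3 + E) = (Real.log y) ^ 3 * (Real.log y) ^ E := by
      rw [Real.rpow_add hly]
      congr 1
      exact_mod_cast Real.rpow_natCast (Real.log y) 3
    have e2 : (Real.log y) ^ E ≤ (1 + Real.log X) ^ E := by
      refine Real.rpow_le_rpow hly.le ?_ hE
      have h9 : Real.log y ≤ Real.log X := Real.log_le_log
        (by exact_mod_cast (by omega : 0 < y)) (by exact_mod_cast hyX)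
      linarith
    have e3 : 0 < (Real.log y) ^ E := Real.rpow_pos_of_pos hly _
    have e4 : 0 < (Real.log y) ^ 3 := by positivity
    rw [hQ, e1, div_le_div_iff₀ e4 (by positivity)]
    calc W * ((Real.log y) ^ 3 * (Real.log y) ^ E)
        ≤ W * ((Real.log y) ^ 3 * (1 + Real.log X) ^ E) := by gcongr
      _ = W * (1 + Real.log X) ^ E * (Real.log y) ^ 3 := by ring
  have h7 : ∀ E' ∈ (∏ j, s j).primeFactors.powerset,
      ((T'.filter (fun t => sg t = E')).card : ℝ) * g E' ≤ Q * g E' := by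
    intro E' _
    refine mul_le_mul_of_nonneg_right ?_ (hg0 E')
    have h9 := hcn D N1 N2 X y Y hD hN1 hN2 hy00 hzy hyK s hs v hv u hu h8 E'
    rw [← hW] at h9
    refine le_trans ?_ (h9.trans hWQ)
    refine Nat.cast_le.2 (card_le_card fun t ht => ?_)
    rw [mem_filter] at ht
    rw [mem_filter]
    obtain ⟨ht', htE⟩ := ht
    obtain ⟨hts, htv, htu⟩ := hval t ht'
    have htT := hT' ht'
    simp only [TS, mem_filter] at htT
    rw [hsg] at htE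
    exact ⟨htT.1, htT.2.1, hts, htv, htu, htE⟩
  calc ∑ t ∈ T', RR q G D N1 N2 t
      ≤ ∑ t ∈ T', (4 ^ (z + 2)) ^ q *
          ((8 ^ q) ^ D.natAbs.primeFactors.card * (((4 ^ (B + 2)) ^ 3) ^ q) ^ k) *
        (4 ^ q) ^ (∑ j, (v j).primeFactors.card) * g (sg t) := sum_le_sum h5
    _ = (4 ^ (z + 2)) ^ q *
          ((8 ^ q) ^ D.natAbs.primeFactors.card * (((4 ^ (B + 2)) ^ 3) ^ q) ^ k) *
        (4 ^ q) ^ (∑ j, (v j).primeFactors.card) *
          ∑ E ∈ (∏ j, s j).primeFactors.powerset,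
            ((T'.filter (fun t => sg t = E)).card : ℝ) * g E := by
        rw [← mul_sum, h6]
    _ ≤ (4 ^ (z + 2)) ^ q *
          ((8 ^ q) ^ D.natAbs.primeFactors.card * (((4 ^ (B + 2)) ^ 3) ^ q) ^ k) *
        (4 ^ q) ^ (∑ j, (v j).primeFactors.card) *
          ∑ E ∈ (∏ j, s j).primeFactors.powerset, Q * g E :=
        mul_le_mul_of_nonneg_left (sum_le_sum h7) (by positivity)
    _ = _ := by
        have e1 : NF q s = (1 / 2) ^ (∏ j, s j).primeFactors.card *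
            ∑ E ∈ (∏ j, s j).primeFactors.powerset, g E := by
          rw [hg]
          rfl
        have e2 : (∏ j, ((4 : ℝ) ^ q) ^ (v j).primeFactors.card * (gw 1 3 (v j) / v j)) =
            (4 ^ q) ^ (∑ j, (v j).primeFactors.card) * ∏ j, (gw 1 3 (v j) / v j) := by
          rw [prod_mul_distrib, prod_pow_eq_pow_sum]
        have e3 : AQ q ^ D.natAbs.primeFactors.card =
            (8 ^ q) ^ D.natAbs.primeFactors.card * 2 ^ D.natAbs.primeFactors.card := by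
          unfold AQ
          rw [← mul_pow, mul_comm]
        have e4 : (∏ j, ((1 : ℝ) ^ (u j).primeFactors.card / (u j : ℝ))) =
            ∏ j, 1 / (u j : ℝ) := by
          refine prod_congr rfl fun j _ => ?_
          rw [one_pow]
        rw [← mul_sum, e1, e2, e3, e4, hQ, hW]
        ring

theorem avgnq_of {q : ℕ} {E : ℝ} (hE : 0 ≤ E) {G : ℤ → ℤ → ℕ} (h : AVGFQ q E G) :
    AVGNQ q E G := by
  classical
  intro B
  obtain ⟨C, hC0, hC⟩ := h (B + 2)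
  refine ⟨C * (9 * 3 ^ E), by positivity, ?_⟩
  intro D N1 N2 X hD hX hN1 hN2
  set X' : ℕ := 3 * X with hX'
  have hXX' : X ≤ X' := by omega
  have hX'1 : 1 ≤ X' := hX.trans hXX'
  set N2' : ℤ := N2 - 2 * N1 - 2 * X with hN2'
  have hb1 : N1.natAbs ≤ X' ^ (B + 2) :=
    hN1.trans ((Nat.pow_le_pow_left hXX' B).trans (Nat.pow_le_pow_right hX'1 (by omega)))
  have hb2 : N2'.natAbs ≤ X' ^ (B + 2) := size_aux X B hX N1 N2 hN1 hN2
  have key := hC D N1 N2' X' hD hX'1 hb1 hb2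
  set H : ℕ × ℕ → ℝ := fun t => if IsCoprime (N1 + (t.1 : ℤ)) (N2' + (t.2 : ℤ)) ∧
      ∀ j, fF (N1 + (t.1 : ℤ)) (N2' + (t.2 : ℤ)) j ≠ 0 then
    ((G (D * fF (N1 + (t.1 : ℤ)) (N2' + (t.2 : ℤ)) 0)
      (D * fF (N1 + (t.1 : ℤ)) (N2' + (t.2 : ℤ)) 1)) : ℝ) ^ q else 0 with hH
  have hH0 : ∀ t, 0 ≤ H t := by
    intro t
    rw [hH]
    simp only
    split_ifs
    · positivity
    · exact le_rfl
  set φ : ℕ × ℕ → ℕ × ℕ := fun t => (t.1, t.2 + 2 * (X - t.1)) with hφ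
  have hpt : ∀ t ∈ Icc 1 X ×ˢ Icc 1 X,
      SSQ q G D (N1 + (t.1 : ℤ), N2 + (t.2 : ℤ)) ≤ H (φ t) := by
    intro t ht
    rw [mem_product, mem_Icc, mem_Icc] at ht
    have hv : N2' + ((φ t).2 : ℤ) = (N2 + (t.2 : ℤ)) - 2 * (N1 + (t.1 : ℤ)) := by
      rw [hφ, hN2']
      simp only
      push_cast [Nat.cast_sub ht.1.2]
      ring
    have hu : ((φ t).1 : ℤ) = (t.1 : ℤ) := rfl
    have hcop : IsCoprime (N1 + (t.1 : ℤ)) (N2' + ((φ t).2 : ℤ)) ↔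
        IsCoprime (N1 + (t.1 : ℤ)) (N2 + (t.2 : ℤ)) := by
      have : N2' + ((φ t).2 : ℤ) = N2 + (t.2 : ℤ) + (-2) * (N1 + (t.1 : ℤ)) := by
        rw [hv]; ring
      rw [this]
      exact IsCoprime.add_mul_right_right_iff
    have f0 : fF (N1 + ((φ t).1 : ℤ)) (N2' + ((φ t).2 : ℤ)) 0 = N1 + (t.1 : ℤ) := by
      rw [hv, hu]
      simp only [fF, fv, αF, βF, Matrix.cons_val_zero]
      ring
    have f1 : fF (N1 + ((φ t).1 : ℤ)) (N2' + ((φ t).2 : ℤ)) 1 = N2 + (t.2 : ℤ) := by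
      rw [hv, hu]
      simp only [fF, fv, αF, βF, Matrix.cons_val_one, Matrix.cons_val_zero]
      ring
    have f2 : fF (N1 + ((φ t).1 : ℤ)) (N2' + ((φ t).2 : ℤ)) 2 =
        (N1 + (t.1 : ℤ)) - (N2 + (t.2 : ℤ)) := by
      rw [hv, hu]
      simp only [fF, fv, αF, βF, Matrix.cons_val]
      ring
    unfold SSQ
    simp only
    split_ifs with hc
    · have hcond : IsCoprime (N1 + ((φ t).1 : ℤ)) (N2' + ((φ t).2 : ℤ)) ∧
          ∀ j, fF (N1 + ((φ t).1 : ℤ)) (N2' + ((φ t).2 : ℤ)) j ≠ 0 := by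
        refine ⟨hcop.mpr hc.1, ?_⟩
        intro k
        fin_cases k
        · change fF _ _ 0 ≠ 0
          rw [f0]; exact hc.2.1
        · change fF _ _ 1 ≠ 0
          rw [f1]; exact hc.2.2.1
        · change fF _ _ 2 ≠ 0
          rw [f2]
          exact sub_ne_zero.2 hc.2.2.2
      have e2 : H (φ t) = ((G (D * fF (N1 + ((φ t).1 : ℤ)) (N2' + ((φ t).2 : ℤ)) 0)
          (D * fF (N1 + ((φ t).1 : ℤ)) (N2' + ((φ t).2 : ℤ)) 1)) : ℝ) ^ q := by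
        rw [hH]
        simp only
        rw [if_pos hcond]
      rw [e2, f0, f1]
    · exact hH0 _
  have hinj : Set.InjOn φ (Icc 1 X ×ˢ Icc 1 X : Finset (ℕ × ℕ)) := by
    intro t _ t' _ htt
    rw [hφ] at htt
    simp only [Prod.mk.injEq] at htt
    obtain ⟨h1, h2⟩ := htt
    rw [h1] at h2
    exact Prod.ext h1 (by omega)
  have hmaps : (Icc 1 X ×ˢ Icc 1 X : Finset (ℕ × ℕ)).image φ ⊆ Icc 1 X' ×ˢ Icc 1 X' := by
    intro t' ht'
    obtain ⟨t, ht, rfl⟩ := mem_image.mp ht'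
    rw [mem_product, mem_Icc, mem_Icc] at ht
    rw [mem_product, mem_Icc, mem_Icc, hφ]
    simp only
    refine ⟨⟨ht.1.1, ht.1.2.trans hXX'⟩, ?_, ?_⟩
    · omega
    · omega
  calc ∑ t ∈ Icc 1 X ×ˢ Icc 1 X, SSQ q G D (N1 + (t.1 : ℤ), N2 + (t.2 : ℤ))
      ≤ ∑ t ∈ Icc 1 X ×ˢ Icc 1 X, H (φ t) := sum_le_sum hpt
    _ = ∑ t' ∈ (Icc 1 X ×ˢ Icc 1 X : Finset (ℕ × ℕ)).image φ, H t' := (sum_image hinj).symm
    _ ≤ ∑ t' ∈ Icc 1 X' ×ˢ Icc 1 X', H t' :=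
        sum_le_sum_of_subset_of_nonneg hmaps (fun t _ _ => hH0 t)
    _ ≤ C * AQ q ^ D.natAbs.primeFactors.card * ((X' : ℝ) ^ 2 * (1 + Real.log X') ^ E) := by
        rw [hH]
        simp only
        rw [← sum_filter]
        exact key
    _ ≤ C * AQ q ^ D.natAbs.primeFactors.card *
          ((X' : ℝ) ^ 2 * (3 * (1 + Real.log X)) ^ E) := by
        have hAQ := AQ_pos q
        have hlX : 0 ≤ Real.log (X : ℝ) := Real.log_natCast_nonneg X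
        have hX0 : (0 : ℝ) < X := by exact_mod_cast hX
        have h3 : Real.log ((X' : ℕ) : ℝ) ≤ 2 + Real.log X := by
          have e : ((X' : ℕ) : ℝ) = 3 * X := by rw [hX']; push_cast; ring
          rw [e, Real.log_mul (by norm_num) hX0.ne']
          have h4 : Real.log 3 ≤ 2 := by
            have := Real.log_le_sub_one_of_pos (show (0 : ℝ) < 3 by norm_num)
            linarith
          linarith
        have h5 : 0 ≤ Real.log ((X' : ℕ) : ℝ) := Real.log_natCast_nonneg X'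
        gcongr
        linarith
    _ = C * (9 * 3 ^ E) * AQ q ^ D.natAbs.primeFactors.card *
          (X ^ 2 * (1 + Real.log X) ^ E) := by
        have hlX : 0 ≤ Real.log (X : ℝ) := Real.log_natCast_nonneg X
        rw [hX', Real.mul_rpow (by norm_num) (by linarith)]
        push_cast
        ring

end Pool.Agent.N870.EG
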