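import Pool.Agent.N870.EG.Maf
import Pool.Agent.W410.FK.FINH
import Pool.Agent.N199.EG.SOMK

/-!
# Project EG: the upper bounds for all the moments, ordered by height

Adapted from `W410/FK/FINH.lean` (helper410) and `W307/RS/Twist6.lean`.
-/

set_option autoImplicit false

namespace Pool.Agent.N870.EG

open Finset Pool.Agent.W262.RK Pool.Agent.W307.RT Pool.Agent.W307.RS Pool.Agent.W307.SE
open Pool.Agent.W307.FK
open Pool.Agent.W307.FK.G (SELFG)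
open Pool.Agent.W410.FK (root_bd size_bd seld selc)

/-- from the box to the curves, for a general function of the curve (adapted from
`W307/RS/Twist6.lean`, with a power of the logarithm) -/
lemma final_genq {m k : ℕ} {E : ℝ} (hE : 0 ≤ E) (hk : 1 ≤ k) (hL : LOW m k) (C0' : ℕ) (F : ℤ × ℤ → ℤ × ℤ)
    (R g : ℤ × ℤ → ℝ) (hg : ∀ t, 0 ≤ g t)
    (hF : ∀ H : ℕ, Set.InjOn F (Cv m H : Set (ℤ × ℤ)) ∧ ∀ c ∈ Cv m H,
      (F c).1.natAbs ^ k ≤ C0' * H ∧ (F c).2.natAbs ^ k ≤ C0' * H ∧ R c ≤ g (F c))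
    (hbox : ∃ C : ℝ, 0 ≤ C ∧ ∀ T : ℕ, 1 ≤ T →
      ∑ t ∈ Box T, g t ≤ C * ((T : ℝ) ^ 2 * (1 + Real.log T) ^ E)) :
    ∃ C : ℝ, 0 ≤ C ∧ ∀ H : ℕ, 1 ≤ H →
      ∑ c ∈ Cv m H, R c ≤ C * ((Cv m H).card * (1 + Real.log H) ^ E) := by
  classical
  obtain ⟨c, C1, T0, hc, hlow⟩ := hL
  obtain ⟨C, hC, hb⟩ := hbox
  set C0 := C0' + 1 with hC0
  have hF' : ∀ H : ℕ, ∀ x ∈ Cv m H, (F x).1.natAbs ^ k ≤ C0 * H ∧ (F x).2.natAbs ^ k ≤ C0 * H := by
    intro H x hx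
    obtain ⟨h1, h2, _⟩ := (hF H).2 x hx
    have : C0' * H ≤ C0 * H := Nat.mul_le_mul_right _ (by omega)
    exact ⟨h1.trans this, h2.trans this⟩
  set D := C0 * C1 + 1 with hD
  have hD1 : 1 ≤ D := by omega
  have hsum : ∀ H T : ℕ, 1 ≤ T → (∀ x ∈ Cv m H, (F x).1.natAbs ≤ T ∧ (F x).2.natAbs ≤ T) →
      ∑ x ∈ Cv m H, R x ≤ C * ((T : ℝ) ^ 2 * (1 + Real.log T) ^ E) := by
    intro H T hT hx
    refine le_trans ?_ (hb T hT)
    obtain ⟨hinj, h2⟩ := hF H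
    have h3 : ∑ x ∈ Cv m H, R x ≤ ∑ t ∈ (Cv m H).image F, g t := by
      rw [sum_image hinj]
      exact sum_le_sum fun x hx' => (h2 x hx').2.2
    refine h3.trans (sum_le_sum_of_subset_of_nonneg ?_ fun t _ _ => hg t)
    intro t ht
    obtain ⟨x, hx', rfl⟩ := mem_image.1 ht
    rw [mem_Box]
    exact hx x hx'
  obtain ⟨T1, hT1d⟩ : ∃ T1 : ℕ, T1 = D * (T0 + 1) := ⟨_, rfl⟩
  have hT11 : 1 ≤ T1 := by
    rw [hT1d]
    exact Nat.mul_pos hD1 (Nat.succ_pos _)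
  have hlT1 : 0 ≤ Real.log (T1 : ℝ) := Real.log_natCast_nonneg T1
  have hlC0 : 0 ≤ Real.log (C0 : ℝ) := Real.log_natCast_nonneg C0
  have hp1 : 0 ≤ (1 + Real.log T1) ^ E := by positivity
  have hp2 : 0 ≤ (1 + Real.log C0) ^ E := by positivity
  have hq0 : 0 ≤ C * (2 * (D : ℝ)) ^ 2 / c * (1 + Real.log C0) ^ E := by positivity
  have hr0 : 0 ≤ C * ((T1 : ℝ) ^ 2 * (1 + Real.log T1) ^ E) := by positivity
  refine ⟨C * ((T1 : ℝ) ^ 2 * (1 + Real.log T1) ^ E) +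
    C * (2 * (D : ℝ)) ^ 2 / c * (1 + Real.log C0) ^ E, by linarith, fun H hH1 => ?_⟩
  have hlH : 0 ≤ Real.log (H : ℝ) := Real.log_natCast_nonneg H
  have hpH : 1 ≤ (1 + Real.log H) ^ E := Real.one_le_rpow (by linarith) hE
  set K := (Cv m H).card with hK
  by_cases hK0 : K = 0
  · have : Cv m H = ∅ := card_eq_zero.1 hK0
    rw [this, sum_empty, hK0]
    simp
  have hK1 : (1 : ℝ) ≤ K := by exact_mod_cast Nat.one_le_iff_ne_zero.2 hK0
  set T := Nat.findGreatest (fun t => t ^ k ≤ C0 * H) (C0 * H) with hT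
  have hle : ∀ x : ℕ, x ^ k ≤ C0 * H → x ≤ T := by
    intro x hx
    apply Nat.le_findGreatest
    · exact (Nat.le_self_pow (by omega) x).trans hx
    · exact hx
  have hTle : T ≤ C0 * H := Nat.findGreatest_le _
  have hTk : T ^ k ≤ C0 * H := by
    have : (fun t => t ^ k ≤ C0 * H) T :=
      Nat.findGreatest_spec (P := fun t => t ^ k ≤ C0 * H) (Nat.zero_le _)
        (by rw [zero_pow (by omega)]; exact Nat.zero_le _)
    exact this
  have hxT : ∀ x ∈ Cv m H, (F x).1.natAbs ≤ T ∧ (F x).2.natAbs ≤ T := fun x hx =>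
    ⟨hle _ (hF' H x hx).1, hle _ (hF' H x hx).2⟩
  have hKH : (0 : ℝ) ≤ K * (1 + Real.log H) ^ E := by positivity
  rcases Nat.lt_or_ge T (D * (T0 + 1)) with hlt | hge
  · rw [← hT1d] at hlt
    have h1 := hsum H T1 hT11 fun x hx =>
      ⟨(hxT x hx).1.trans hlt.le, (hxT x hx).2.trans hlt.le⟩
    calc _ ≤ C * ((T1 : ℝ) ^ 2 * (1 + Real.log T1) ^ E) := h1
      _ ≤ C * ((T1 : ℝ) ^ 2 * (1 + Real.log T1) ^ E) * (K * (1 + Real.log H) ^ E) :=
        le_mul_of_one_le_right hr0 (one_le_mul_of_one_le_of_one_le hK1 hpH)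
      _ ≤ _ := by
        apply mul_le_mul_of_nonneg_right _ hKH
        linarith
  · have hT1 : 1 ≤ T := (Nat.mul_pos hD1 (Nat.succ_pos _)).trans_le hge
    have h1 := hsum H T hT1 hxT
    have hlT : 1 + Real.log T ≤ (1 + Real.log C0) * (1 + Real.log H) := by
      have hC0r : (0 : ℝ) < C0 := by exact_mod_cast (by omega : 0 < C0)
      have hHr : (0 : ℝ) < H := by exact_mod_cast hH1
      have h9 : Real.log T ≤ Real.log C0 + Real.log H := by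
        rw [← Real.log_mul hC0r.ne' hHr.ne']
        exact Real.log_le_log (by exact_mod_cast hT1) (by exact_mod_cast hTle)
      nlinarith [mul_nonneg hlC0 hlH]
    have hlT0 : 0 ≤ Real.log (T : ℝ) := Real.log_natCast_nonneg T
    have hlTE : (1 + Real.log T) ^ E ≤ (1 + Real.log C0) ^ E * (1 + Real.log H) ^ E := by
      rw [← Real.mul_rpow (by linarith) (by linarith)]
      exact Real.rpow_le_rpow (by linarith) hlT hE
    set T' := T / D with hT'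
    have hT'0 : T0 + 1 ≤ T' := by
      rw [hT', Nat.le_div_iff_mul_le hD1, mul_comm]
      exact hge
    have h2 : T' * D ≤ T := Nat.div_mul_le_self T D
    have h3 : C1 * T' ^ k ≤ H := by
      have a1 : (T' * D) ^ k ≤ C0 * H := (Nat.pow_le_pow_left h2 k).trans hTk
      rw [mul_pow] at a1
      have a2 : D ≤ D ^ k := Nat.le_self_pow (by omega) D
      have a3 : T' ^ k * (C0 * C1) ≤ C0 * H :=
        (Nat.mul_le_mul_left _ (by omega : C0 * C1 ≤ D ^ k)).trans a1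
      have a4 : C0 * (C1 * T' ^ k) ≤ C0 * H := by
        calc C0 * (C1 * T' ^ k) = T' ^ k * (C0 * C1) := by ring
          _ ≤ _ := a3
      exact Nat.le_of_mul_le_mul_left a4 (by omega)
    have h4 := hlow T' H (by omega) h3
    have h5 : T ≤ 2 * D * T' := by
      have a1 : T < D * (T' + 1) := by
        rw [mul_comm]
        exact Nat.lt_mul_of_div_lt (by rw [← hT']; omega) hD1
      have a2 : D * (T' + 1) ≤ 2 * D * T' := by nlinarith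
      omega
    have h6 : (T : ℝ) ≤ 2 * D * T' := by exact_mod_cast h5
    have h7 : C * (T : ℝ) ^ 2 ≤ C * (2 * (D : ℝ)) ^ 2 / c * K := by
      calc C * (T : ℝ) ^ 2 ≤ C * (2 * D * T') ^ 2 := by
            apply mul_le_mul_of_nonneg_left _ hC
            exact pow_le_pow_left₀ (Nat.cast_nonneg T) h6 2
        _ = C * (2 * (D : ℝ)) ^ 2 / c * (c * (T' : ℝ) ^ 2) := by
            field_simp
        _ ≤ C * (2 * (D : ℝ)) ^ 2 / c * K := mul_le_mul_of_nonneg_left h4 (by positivity)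
    calc _ ≤ C * ((T : ℝ) ^ 2 * (1 + Real.log T) ^ E) := h1
      _ = C * (T : ℝ) ^ 2 * (1 + Real.log T) ^ E := by ring
      _ ≤ (C * (2 * (D : ℝ)) ^ 2 / c * K) * ((1 + Real.log C0) ^ E * (1 + Real.log H) ^ E) :=
          mul_le_mul h7 hlTE (by positivity) (by positivity)
      _ = C * (2 * (D : ℝ)) ^ 2 / c * (1 + Real.log C0) ^ E * (K * (1 + Real.log H) ^ E) := by ring
      _ ≤ _ := by
        apply mul_le_mul_of_nonneg_right _ hKH
        linarith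

/-- from the short squares to the boxes -/
lemma box_one {g : ℤ × ℤ → ℝ} {A : ℝ} {T : ℕ} (hT : 1 ≤ T)
    (h : ∀ (N1 N2 : ℤ) (X : ℕ), X = 2 * T + 1 → N1.natAbs ≤ X ^ 1 → N2.natAbs ≤ X ^ 1 →
    ∑ t ∈ Icc 1 X ×ˢ Icc 1 X, g (N1 + (t.1 : ℤ), N2 + (t.2 : ℤ)) ≤ A) : ∑ t ∈ Box T, g t ≤ A := by
  have h1 := h (-(T : ℤ) - 1) (-(T : ℤ) - 1) (2 * T + 1) rfl (by rw [pow_one]; omega)
    (by rw [pow_one]; omega)
  have h2 : ∑ t ∈ Box T, g t =
      ∑ t ∈ Icc 1 (2 * T + 1) ×ˢ Icc 1 (2 * T + 1), g (-(T : ℤ) - 1 + (t.1 : ℤ),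
        -(T : ℤ) - 1 + (t.2 : ℤ)) := by
    symm
    apply sum_bij (fun (t : ℕ × ℕ) _ => ((-(T : ℤ) - 1 + (t.1 : ℤ), -(T : ℤ) - 1 + (t.2 : ℤ)) :
      ℤ × ℤ))
    · intro t ht
      rw [mem_product, mem_Icc, mem_Icc] at ht
      rw [mem_Box]
      constructor <;> simp only <;> omega
    · intro t _ t' _ htt
      simp only [Prod.mk.injEq] at htt
      ext <;> omega
    · intro t ht
      rw [mem_Box] at ht
      refine ⟨((t.1 + T + 1).toNat, (t.2 + T + 1).toNat), ?_, ?_⟩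
      · rw [mem_product, mem_Icc, mem_Icc]
        simp only
        omega
      · ext <;> simp only <;> omega
    · intro t _
      rfl
  rw [h2]
  exact h1

/-- the order of the 2-Selmer group -/
noncomputable def nS (A B : ℤ) : ℕ := (Sel A B).ncard

lemma selfg : SELFG nS := by
  intro f D z y X k B h1 h2 h3 h4 h5 h6 h7 h8
  exact (Pool.Agent.W293.FK.Self.self_of Pool.Agent.W940.FK.subl f D z y X k B h1 h2 h3 h4 h5 h6
    h7 h8).2

open Classical in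
/-- the power of the order of the 2-Selmer group of `y² = x (x - a) (x - b)` -/
noncomputable def GQ (q : ℕ) (t : ℤ × ℤ) : ℝ :=
  if t.1 ≠ 0 ∧ t.2 ≠ 0 ∧ t.1 ≠ t.2 then (nS t.1 t.2 : ℝ) ^ q else 0

lemma GQ_nonneg (q : ℕ) (t : ℤ × ℤ) : 0 ≤ GQ q t := by
  unfold GQ
  split_ifs
  · positivity
  · exact le_rfl

lemma SSQ_nonneg (q : ℕ) (D : ℤ) (t : ℤ × ℤ) : 0 ≤ SSQ q nS D t := by
  unfold SSQ
  split_ifs
  · positivity
  · exact le_rfl

lemma box_GQ {q : ℕ} {E : ℝ} (hE : 0 ≤ E) (h1 : AVGNQ q E nS) (h2 : S_SOMK) :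
    ∃ C : ℝ, 0 ≤ C ∧ ∀ T : ℕ, 1 ≤ T →
      ∑ t ∈ Box T, GQ q t ≤ C * ((T : ℝ) ^ 2 * (1 + Real.log T) ^ E) := by
  classical
  obtain ⟨C1, hC1, h1⟩ := h1 1
  obtain ⟨C2, hC2, h2⟩ := h2 (2 * 8 ^ q)
  refine ⟨9 * 3 ^ E * C1 * C2, by positivity, fun T hT => ?_⟩
  -- decomposition with respect to the greatest common divisor
  set S := (Box T).filter fun t : ℤ × ℤ => t.1 ≠ 0 ∧ t.2 ≠ 0 ∧ t.1 ≠ t.2 with hS
  have e1 : ∑ t ∈ Box T, GQ q t = ∑ t ∈ S, GQ q t := by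
    symm
    apply sum_subset (filter_subset _ _)
    intro t ht ht2
    unfold GQ
    rw [if_neg]
    intro h
    exact ht2 (mem_filter.2 ⟨ht, h⟩)
  let F : ℤ × ℤ → (Σ _ : ℕ, ℤ × ℤ) := fun t =>
    ⟨Int.gcd t.1 t.2, (t.1 / (Int.gcd t.1 t.2 : ℤ), t.2 / (Int.gcd t.1 t.2 : ℤ))⟩
  have hdiv : ∀ t : ℤ × ℤ, (Int.gcd t.1 t.2 : ℤ) * (t.1 / (Int.gcd t.1 t.2 : ℤ)) = t.1 ∧
      (Int.gcd t.1 t.2 : ℤ) * (t.2 / (Int.gcd t.1 t.2 : ℤ)) = t.2 := fun t =>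
    ⟨Int.mul_ediv_cancel' (Int.gcd_dvd_left _ _), Int.mul_ediv_cancel' (Int.gcd_dvd_right _ _)⟩
  have hinj : Set.InjOn F S := by
    intro t _ t' _ h
    have g1 : Int.gcd t.1 t.2 = Int.gcd t'.1 t'.2 := congrArg Sigma.fst h
    have g2 : (t.1 / (Int.gcd t.1 t.2 : ℤ), t.2 / (Int.gcd t.1 t.2 : ℤ)) =
        (t'.1 / (Int.gcd t'.1 t'.2 : ℤ), t'.2 / (Int.gcd t'.1 t'.2 : ℤ)) :=
      congrArg (fun x : (Σ _ : ℕ, ℤ × ℤ) => x.2) h
    rw [Prod.mk.injEq] at g2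
    obtain ⟨a1, a2⟩ := hdiv t
    obtain ⟨b1, b2⟩ := hdiv t'
    ext
    · rw [← a1, ← b1, g2.1, g1]
    · rw [← a2, ← b2, g2.2, g1]
  have hmem : ∀ t ∈ S, F t ∈ (Icc 1 T).sigma (fun g => Box (T / g)) ∧
      GQ q t = SSQ q nS ((F t).1 : ℤ) (F t).2 := by
    intro t ht
    obtain ⟨ht1, t1, t2, t3⟩ := mem_filter.1 ht
    rw [mem_Box] at ht1
    obtain ⟨a1, a2⟩ := hdiv t
    have hg0 : 0 < Int.gcd t.1 t.2 := Int.gcd_pos_of_ne_zero_left _ t1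
    have hgT : Int.gcd t.1 t.2 ≤ T := by
      have : Int.gcd t.1 t.2 ≤ t.1.natAbs :=
        Nat.le_of_dvd (by omega) (Int.natCast_dvd.1 (Int.gcd_dvd_left _ _))
      omega
    have hb : ∀ x y : ℤ, (Int.gcd t.1 t.2 : ℤ) * x = y → y.natAbs ≤ T →
        x.natAbs ≤ T / Int.gcd t.1 t.2 := by
      intro x y hxy hy
      rw [Nat.le_div_iff_mul_le hg0]
      rw [← hxy, Int.natAbs_mul, Int.natAbs_natCast] at hy
      linarith
    refine ⟨?_, ?_⟩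
    · rw [mem_sigma, mem_Icc, mem_Box]
      exact ⟨⟨hg0, hgT⟩, hb _ _ a1 ht1.1, hb _ _ a2 ht1.2⟩
    · unfold GQ SSQ
      rw [if_pos ⟨t1, t2, t3⟩, if_pos]
      · change _ = (nS ((Int.gcd t.1 t.2 : ℤ) * (t.1 / (Int.gcd t.1 t.2 : ℤ)))
          ((Int.gcd t.1 t.2 : ℤ) * (t.2 / (Int.gcd t.1 t.2 : ℤ))) : ℝ) ^ q
        rw [a1, a2]
      · refine ⟨?_, ?_, ?_, ?_⟩
        · exact Int.isCoprime_iff_gcd_eq_one.2 (Int.gcd_ediv_gcd_ediv_gcd hg0)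
        · intro h
          apply t1
          change t.1 / (Int.gcd t.1 t.2 : ℤ) = 0 at h
          rw [← a1, h, mul_zero]
        · intro h
          apply t2
          change t.2 / (Int.gcd t.1 t.2 : ℤ) = 0 at h
          rw [← a2, h, mul_zero]
        · intro h
          apply t3
          change t.1 / (Int.gcd t.1 t.2 : ℤ) = t.2 / (Int.gcd t.1 t.2 : ℤ) at h
          exact a1.symm.trans ((congrArg (fun x => (Int.gcd t.1 t.2 : ℤ) * x) h).trans a2)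
  have e2 : ∑ t ∈ S, GQ q t ≤
      ∑ x ∈ (Icc 1 T).sigma (fun g => Box (T / g)), SSQ q nS (x.1 : ℤ) x.2 := by
    calc ∑ t ∈ S, GQ q t = ∑ t ∈ S, SSQ q nS ((F t).1 : ℤ) (F t).2 :=
          sum_congr rfl fun t ht => (hmem t ht).2
      _ = ∑ x ∈ S.image F, SSQ q nS (x.1 : ℤ) x.2 := by rw [sum_image hinj]
      _ ≤ _ := sum_le_sum_of_subset_of_nonneg (fun x hx => by
          obtain ⟨t, ht, rfl⟩ := mem_image.1 hx
          exact (hmem t ht).1) fun x _ _ => SSQ_nonneg q _ _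
  rw [e1]
  refine e2.trans ?_
  rw [sum_sigma]
  have hlT : 0 ≤ Real.log (T : ℝ) := Real.log_natCast_nonneg T
  have e3 : ∀ g ∈ Icc 1 T, ∑ s ∈ Box (T / g), SSQ q nS (g : ℤ) s ≤
      9 * 3 ^ E * C1 * ((T : ℝ) ^ 2 * (1 + Real.log T) ^ E) *
        (((2 * 8 ^ q : ℕ) : ℝ) ^ g.primeFactors.card / (g : ℝ) ^ 2) := by
    intro g hg
    rw [mem_Icc] at hg
    have hg0 : (0 : ℝ) < g := by exact_mod_cast hg.1
    have hTg : 1 ≤ T / g := (Nat.one_le_div_iff hg.1).2 hg.2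
    have hAQ := AQ_pos q
    have hAQe : ((2 * 8 ^ q : ℕ) : ℝ) = AQ q := by
      unfold AQ
      push_cast
      ring
    refine box_one hTg fun N1 N2 X hX b1 b2 => ?_
    have h3 := h1 (g : ℤ) N1 N2 X (by exact_mod_cast (by omega : g ≠ 0)) (by omega) b1 b2
    rw [Int.natAbs_natCast] at h3
    refine h3.trans ?_
    have h4 : (((T / g : ℕ) : ℝ)) ≤ (T : ℝ) / g := Nat.cast_div_le
    have h5 : (X : ℝ) ≤ 3 * ((T : ℝ) / g) := by
      have : X ≤ 3 * (T / g) := by omega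
      have h6 : (X : ℝ) ≤ 3 * ((T / g : ℕ) : ℝ) := by exact_mod_cast this
      linarith
    have hX0 : (0 : ℝ) < X := by exact_mod_cast (by omega : 0 < X)
    have hlX : 0 ≤ Real.log (X : ℝ) := Real.log_natCast_nonneg X
    have hT0 : (0 : ℝ) < T := by exact_mod_cast hT
    have h7 : Real.log (X : ℝ) ≤ 2 + Real.log T := by
      have h8 : (X : ℝ) ≤ 3 * T := by
        refine h5.trans ?_
        have h9 : (T : ℝ) / g ≤ T := div_le_self hT0.le (by exact_mod_cast hg.1)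
        linarith
      have h9 := Real.log_le_log hX0 h8
      rw [Real.log_mul (by norm_num) hT0.ne'] at h9
      have h10 : Real.log 3 ≤ 2 := by
        have := Real.log_le_sub_one_of_pos (show (0 : ℝ) < 3 by norm_num)
        linarith
      linarith
    rw [hAQe]
    calc C1 * AQ q ^ g.primeFactors.card * ((X : ℝ) ^ 2 * (1 + Real.log X) ^ E)
        ≤ C1 * AQ q ^ g.primeFactors.card *
          ((3 * ((T : ℝ) / g)) ^ 2 * (3 * (1 + Real.log T)) ^ E) := by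
          gcongr
          linarith
      _ = _ := by
        rw [Real.mul_rpow (by norm_num) (by linarith)]
        field_simp
        ring
  refine (sum_le_sum e3).trans ?_
  rw [← mul_sum]
  calc 9 * 3 ^ E * C1 * ((T : ℝ) ^ 2 * (1 + Real.log T) ^ E) *
        ∑ g ∈ Icc 1 T, ((2 * 8 ^ q : ℕ) : ℝ) ^ g.primeFactors.card / (g : ℝ) ^ 2
      ≤ 9 * 3 ^ E * C1 * ((T : ℝ) ^ 2 * (1 + Real.log T) ^ E) * C2 :=
        mul_le_mul_of_nonneg_left (h2 T) (by positivity)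
    _ = 9 * 3 ^ E * C1 * C2 * ((T : ℝ) ^ 2 * (1 + Real.log T) ^ E) := by ring

/-- the moments of the curves with full rational 2-torsion, ordered by height -/
theorem finq_of {q : ℕ} {E : ℝ} (hE : 0 ≤ E) (h1 : AVGNQ q E nS) (h2 : S_SOMK)
    (h3 : Pool.Agent.W307.FK.PARF) (h4 : Pool.Agent.W307.RT.LOW 2 6) :
    ∃ C : ℝ, 0 ≤ C ∧ ∀ H : ℕ, 1 ≤ H → ∑ c ∈ Cv 2 H, ((SelR c.1 c.2).ncard : ℝ) ^ q ≤
      C * ((Cv 2 H).card * (1 + Real.log H) ^ E) := by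
  classical
  obtain ⟨F, hinj, hF⟩ := h3
  have hmem : ∀ H, ∀ c ∈ Cv 2 H, 4 * c.1 ^ 3 + 27 * c.2 ^ 2 ≠ 0 ∧ 4 * |c.1| ^ 3 ≤ H ∧
      HasT 2 (Sh c.1 c.2) := by
    intro H c hc
    unfold Cv at hc
    obtain ⟨_, a1, a2, _, _, a3⟩ := mem_filter.1 hc
    exact ⟨a1, a2, a3⟩
  let F' : ℤ × ℤ → ℤ × ℤ := fun c => (((F c).1 : ℤ) * (F c).2.1, ((F c).1 : ℤ) * (F c).2.2)
  have key : ∀ H, ∀ c ∈ Cv 2 H, (SelR c.1 c.2).Finite ∧
      ((SelR c.1 c.2).ncard : ℝ) ^ q ≤ GQ q (F' c) ∧ (F' c).1.natAbs ^ 6 ≤ 16 * H ∧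
        (F' c).2.natAbs ^ 6 ≤ 16 * H := by
    intro H c hc
    obtain ⟨a1, a2, a3⟩ := hmem H c hc
    obtain ⟨b1, b2, b3, b4, b5, e1, e2, e3, hr, d1, d2⟩ := hF c a1 a3
    have hg : ((F c).1 : ℤ) ≠ 0 := by exact_mod_cast (by omega : (F c).1 ≠ 0)
    have hne1 : (F' c).1 ≠ 0 := mul_ne_zero hg b3
    have hne2 : (F' c).2 ≠ 0 := mul_ne_zero hg b4
    have hne3 : (F' c).1 ≠ (F' c).2 := fun h => b5 (mul_left_cancel₀ hg h)
    have hfin := sel_fin seld hne1 hne2 hne3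
    obtain ⟨f1, f2⟩ := selc c.1 c.2 e1 e2 e3 (F' c).1 (F' c).2 1 a1 hr one_ne_zero
      (by rw [d1, one_pow, mul_one]) (by rw [d2, one_pow, mul_one]) hfin
    obtain ⟨r1, r2⟩ := root_bd hr
    refine ⟨f1, ?_, ?_, ?_⟩
    · unfold GQ
      rw [if_pos ⟨hne1, hne2, hne3⟩]
      have : ((SelR c.1 c.2).ncard : ℝ) ≤ (nS (F' c).1 (F' c).2 : ℝ) := by
        exact_mod_cast f2
      exact pow_le_pow_left₀ (Nat.cast_nonneg _) this q
    · rw [d1] at r1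
      exact size_bd r1 a2
    · rw [d2] at r2
      exact size_bd r2 a2
  have hinj' : ∀ H, Set.InjOn F' (Cv 2 H : Set (ℤ × ℤ)) := by
    intro H c hc c' hc' h
    obtain ⟨a1, _, a3⟩ := hmem H c hc
    obtain ⟨a1', _, a3'⟩ := hmem H c' hc'
    obtain ⟨b1, b2, _⟩ := hF c a1 a3
    obtain ⟨b1', b2', _⟩ := hF c' a1' a3'
    apply hinj ⟨a1, a3⟩ ⟨a1', a3'⟩
    have hgcd : ∀ x : ℕ × ℤ × ℤ, IsCoprime x.2.1 x.2.2 →
        Int.gcd ((x.1 : ℤ) * x.2.1) ((x.1 : ℤ) * x.2.2) = x.1 := by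
      intro x hx
      rw [Int.gcd_mul_left, Int.isCoprime_iff_gcd_eq_one.1 hx, mul_one, Int.natAbs_natCast]
    have g1 : (F c).1 = (F c').1 := by
      rw [← hgcd _ b2, ← hgcd _ b2']
      have k1 := congrArg Prod.fst h
      have k2 := congrArg Prod.snd h
      change ((F c).1 : ℤ) * (F c).2.1 = ((F c').1 : ℤ) * (F c').2.1 at k1
      change ((F c).1 : ℤ) * (F c).2.2 = ((F c').1 : ℤ) * (F c').2.2 at k2
      rw [k1, k2]
    have hg : ((F c).1 : ℤ) ≠ 0 := by exact_mod_cast (by omega : (F c).1 ≠ 0)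
    have k1 : ((F c).1 : ℤ) * (F c).2.1 = ((F c').1 : ℤ) * (F c').2.1 := congrArg Prod.fst h
    have k2 : ((F c).1 : ℤ) * (F c).2.2 = ((F c').1 : ℤ) * (F c').2.2 := congrArg Prod.snd h
    rw [← g1] at k1 k2
    exact Prod.ext g1 (Prod.ext (mul_left_cancel₀ hg k1) (mul_left_cancel₀ hg k2))
  exact final_genq hE (by norm_num) h4 16 F'
    (fun c => ((SelR c.1 c.2).ncard : ℝ) ^ q) (GQ q) (GQ_nonneg q)
    (fun H => ⟨hinj' H, fun c hc => ⟨(key H c hc).2.2.1, (key H c hc).2.2.2, (key H c hc).2.1⟩⟩)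
    (box_GQ hE h1 h2)

/-- **the upper bounds for the moments** -/
theorem finq (hcomb : S_COMBK) {q : ℕ} (hq : 2 ≤ q) :
    ∃ C : ℝ, 0 ≤ C ∧ ∀ H : ℕ, 1 ≤ H → ∑ c ∈ Cv 2 H, ((SelR c.1 c.2).ncard : ℝ) ^ q ≤
      C * ((Cv 2 H).card * (1 + Real.log H) ^ EX q) :=
  finq_of (EX_nonneg hq) (avgnq_of (EX_nonneg hq) (avgfq_of (EX_nonneg hq) selfg
    Pool.Agent.W307.FK.cntf (mafq hq hcomb) Pool.Agent.W503.FK.subf)) Pool.Agent.N199.EG.t_SOMK
    Pool.Agent.W513.FK.parf Pool.Agent.W672.FK.lowf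

end Pool.Agent.N870.EG
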