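import Pool.Agent.N870.EG.Avg
import Pool.Agent.W262.RK.MA
import Pool.Agent.W215.FK.MAF
import Pool.Agent.W307.FK.Main

/-!
# Project EG: the main average (adapted from `W215/FK/MAF.lean` by helper215)
-/

set_option autoImplicit false

namespace Pool.Agent.N870.EG

open Finset Pool.Agent.W262.RK Pool.Agent.W307.RT Pool.Agent.W307.RS Pool.Agent.W307.FK

/-- the exponent of the growth of the moment of order `q` -/
noncomputable def EX (q : ℕ) : ℝ := (2 ^ q - 1) / 2 - 2 * (1 - 1 / 2 ^ q)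

lemma EX_nonneg {q : ℕ} (hq : 2 ≤ q) : 0 ≤ EX q := by
  have h4 : (4 : ℝ) ≤ 2 ^ q := by
    calc (4 : ℝ) = 2 ^ 2 := by norm_num
      _ ≤ 2 ^ q := pow_le_pow_right₀ (by norm_num) hq
  have e : EX q = ((2 : ℝ) ^ q - 1) * (2 ^ q - 4) / (2 * 2 ^ q) := by
    unfold EX
    field_simp
    ring
  rw [e]
  apply div_nonneg
  · apply mul_nonneg <;> linarith
  · positivity

lemma card_bd {q : ℕ} (hq : 2 ≤ q) : ((max (3 * 2 ^ q) (2 ^ (2 * q - 1) + 2 ^ (q - 1) + 2) : ℕ) : ℝ) ≤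
    2 ^ q * (3 + EX q) := by
  have h4 : (4 : ℝ) ≤ 2 ^ q := by
    calc (4 : ℝ) = 2 ^ 2 := by norm_num
      _ ≤ 2 ^ q := pow_le_pow_right₀ (by norm_num) hq
  have e1 : (2 : ℝ) ^ q * (3 + EX q) = (2 ^ q) ^ 2 / 2 + 2 ^ q / 2 + 2 := by
    unfold EX
    field_simp
    ring
  have e2 : (2 : ℝ) ^ (q - 1) = 2 ^ q / 2 := by
    obtain ⟨r, rfl⟩ : ∃ r, q = r + 1 := ⟨q - 1, by omega⟩
    rw [Nat.add_sub_cancel, pow_succ]
    ring
  have e3 : (2 : ℝ) ^ (2 * q - 1) = (2 ^ q) ^ 2 / 2 := by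
    obtain ⟨r, rfl⟩ : ∃ r, q = r + 1 := ⟨q - 1, by omega⟩
    have h1 : 2 * (r + 1) - 1 = 2 * r + 1 := by omega
    have h2 : (2 : ℝ) ^ (2 * r) = (2 ^ r) ^ 2 := by rw [← pow_mul, mul_comm]
    rw [h1, pow_succ, pow_succ 2 r, h2]
    ring
  rw [e1]
  push_cast
  rw [e2, e3]
  apply max_le
  · nlinarith
  · exact le_rfl

/-- the average of the moments -/
theorem mafq {q : ℕ} (hq : 2 ≤ q) (hcomb : S_COMBK) : MAFQ q (EX q) := by
  obtain ⟨z0, hz0⟩ := at_thm (IF q) (fun _ => 1 / 2 ^ q) (Lk q) (fun _ => 1)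
    3 (3 + EX q)
    (fun _ => ⟨by positivity, by
      have h2 : (2 : ℝ) ≤ 2 ^ q := by
        calc (2 : ℝ) = 2 ^ 1 := by norm_num
          _ ≤ 2 ^ q := pow_le_pow_right₀ (by norm_num) (by omega)
      rw [div_le_div_iff₀ (by positivity) (by norm_num)]
      linarith⟩) (Pool.Agent.W215.FK.Lk_self q) (fun _ => one_ne_zero) (fun U hU => by
      rw [sum_const, nsmul_eq_mul]
      have h3 := hcomb q (by omega) U hU
      have h4 : ((U.card : ℕ) : ℝ) ≤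
          ((max (3 * 2 ^ q) (2 ^ (2 * q - 1) + 2 ^ (q - 1) + 2) : ℕ) : ℝ) := by
        exact_mod_cast h3
      have h5 := h4.trans (card_bd hq)
      have h6 : (0 : ℝ) < 2 ^ q := by positivity
      rw [mul_one_div, div_le_iff₀ h6]
      linarith)
  refine ⟨max z0 2, fun z hz => ?_⟩
  obtain ⟨C, hC⟩ := hz0 z (le_trans (le_max_left _ _) hz)
  refine ⟨C, fun y hy => ?_⟩
  have hz2 : 2 ≤ z := le_trans (le_max_right _ _) hz
  rw [Pool.Agent.W307.FK.expf q 3 z y hz2]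
  exact le_trans (le_abs_self _) (hC y hy)

end Pool.Agent.N870.EG
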